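import Pool.Agent.Q123.CC.Clone
import Pool.Agent.Q123.CC.Sharp

/-!
Steiner systems whose blocks are closed under a Boolean operation.
-/

set_option autoImplicit false

open Finset Q123.CC

namespace Q123.ST

variable {n q r : ℕ} {F : Finset (Finset (Fin n))}

/-- Steiner systems -/
def IsSteiner (n q r : ℕ) (F : Finset (Finset (Fin n))) : Prop :=
  (∀ B ∈ F, B.card = q) ∧ ∀ R : Finset (Fin n), R.card = r → ∃! B, B ∈ F ∧ R ⊆ B

/-- the binary word of a set -/
def word (B : Finset (Fin n)) : Fin n → ZMod 2 := fun j => if j ∈ B then 1 else 0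

lemma word_inj {A B : Finset (Fin n)} (h : word A = word B) : A = B := by
  ext j
  have h1 := congrFun h j
  unfold word at h1
  by_cases hA : j ∈ A <;> by_cases hB : j ∈ B
  · exact iff_of_true hA hB
  · rw [if_pos hA, if_neg hB] at h1
    exact absurd h1 (by decide)
  · rw [if_neg hA, if_pos hB] at h1
    exact absurd h1 (by decide)
  · exact iff_of_false hA hB

/-- the blocks, possibly together with the empty set and the whole set, are closed under `f` -/
def Closed {k : ℕ} (f : (Fin k → ZMod 2) → ZMod 2) (F : Finset (Finset (Fin n))) : Prop :=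
  ∃ E : Finset (Finset (Fin n)), E ⊆ {∅, univ} ∧ ClosedUnder f ((F ∪ E).image word)

lemma same {B B' R : Finset (Fin n)} (h : IsSteiner n q r F) (hB : B ∈ F) (hB' : B' ∈ F)
    (hR : R.card = r) (h1 : R ⊆ B) (h2 : R ⊆ B') : B = B' :=
  (h.2 R hR).unique ⟨hB, h1⟩ ⟨hB', h2⟩

lemma inter_card {B B' : Finset (Fin n)} (h : IsSteiner n q r F) (hB : B ∈ F) (hB' : B' ∈ F)
    (hne : B ≠ B') : (B ∩ B').card < r := by
  by_contra hcon
  push Not at hcon
  obtain ⟨R, hR, hc⟩ := exists_subset_card_eq hcon
  exact hne (same h hB hB' hc (hR.trans inter_subset_left) (hR.trans inter_subset_right))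

lemma inter_eq {B B' T : Finset (Fin n)} (h : IsSteiner n q r F) (hB : B ∈ F) (hB' : B' ∈ F)
    (hne : B ≠ B') (hT : T.card + 1 = r) (h1 : T ⊆ B) (h2 : T ⊆ B') : B ∩ B' = T := by
  symm
  apply eq_of_subset_of_card_le (subset_inter h1 h2)
  have := inter_card h hB hB' hne
  omega

/-- block through an `r`-set -/
lemma block {R : Finset (Fin n)} (h : IsSteiner n q r F) (hR : R.card = r) :
    ∃ B ∈ F, R ⊆ B := by
  obtain ⟨B, ⟨hB, hs⟩, _⟩ := h.2 R hR
  exact ⟨B, hB, hs⟩

lemma exists_block (h : IsSteiner n q r F) (hn : r ≤ n) : ∃ B, B ∈ F := by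
  obtain ⟨R, _, hR⟩ := exists_subset_card_eq (s := (univ : Finset (Fin n))) (n := r)
    (by rw [card_univ, Fintype.card_fin]; exact hn)
  obtain ⟨B, hB, _⟩ := block h hR
  exact ⟨B, hB⟩

lemma exists_notMem {B : Finset (Fin n)} (h : B.card < n) : ∃ y, y ∉ B := by
  by_contra hcon
  push Not at hcon
  have : B = univ := eq_univ_of_forall hcon
  rw [this, card_univ, Fintype.card_fin] at h
  exact lt_irrefl _ h

/-- the basic configuration of three blocks -/
theorem config (h : IsSteiner n q r F) (hr : 2 ≤ r) (hrq : r < q) (hqn : q < n) :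
    ∃ B0 ∈ F, ∃ B1 ∈ F, ∃ B2 ∈ F, ∃ (P : Finset (Fin n)) (a b y c : Fin n),
      P.card + 1 = r ∧ a ∈ P ∧ b ∉ P ∧ y ∉ B0 ∧ c ∈ B0 ∧ c ∉ P ∧ c ≠ b ∧ b ∈ B0 ∧
      B0 ∩ B1 = P ∧ B0 ∩ B2 = insert b (P.erase a) ∧ B1 ∩ B2 = insert y (P.erase a) ∧
      B0 ≠ B1 ∧ B0 ≠ B2 ∧ B1 ≠ B2 := by
  obtain ⟨B0, hB0⟩ := exists_block h (by omega)
  have hc0 := h.1 B0 hB0
  obtain ⟨y, hy⟩ := exists_notMem (B := B0) (by omega)
  obtain ⟨P, hP, hPc⟩ := exists_subset_card_eq (s := B0) (n := r - 1) (by omega)
  obtain ⟨a, ha⟩ : P.Nonempty := card_pos.1 (by omega)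
  have hd : (B0 \ P).card = q - (r - 1) := by rw [card_sdiff_of_subset hP]; omega
  obtain ⟨b, hb⟩ : (B0 \ P).Nonempty := card_pos.1 (by omega)
  rw [mem_sdiff] at hb
  obtain ⟨c, hc⟩ : ((B0 \ P).erase b).Nonempty := by
    apply card_pos.1
    rw [card_erase_of_mem (mem_sdiff.2 hb)]
    omega
  rw [mem_erase, mem_sdiff] at hc
  have hyP : y ∉ P := fun h => hy (hP h)
  have hyb : y ≠ b := fun h => hy (h ▸ hb.1)
  have hya : y ≠ a := fun h => hyP (h ▸ ha)
  have hab : a ≠ b := fun h => hb.2 (h ▸ ha)
  have hPa : (P.erase a).card + 1 = P.card := card_erase_add_one ha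
  have hP'c : (insert b (P.erase a)).card = r - 1 := by
    rw [card_insert_of_notMem (fun h => hb.2 (mem_of_mem_erase h))]
    omega
  have hP' : insert b (P.erase a) ⊆ B0 := by
    intro z hz
    rcases mem_insert.1 hz with rfl | hz
    · exact hb.1
    · exact hP (mem_of_mem_erase hz)
  have hyP' : y ∉ insert b (P.erase a) := fun h => hy (hP' h)
  obtain ⟨B1, hB1, hs1⟩ := block h (R := insert y P) (by rw [card_insert_of_notMem hyP]; omega)
  obtain ⟨B2, hB2, hs2⟩ := block h (R := insert y (insert b (P.erase a)))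
    (by rw [card_insert_of_notMem hyP']; omega)
  have hy1 : y ∈ B1 := hs1 (mem_insert_self _ _)
  have hy2 : y ∈ B2 := hs2 (mem_insert_self _ _)
  have h01 : B0 ≠ B1 := fun h => hy (h ▸ hy1)
  have h02 : B0 ≠ B2 := fun h => hy (h ▸ hy2)
  have hP1 : P ⊆ B1 := fun z hz => hs1 (mem_insert_of_mem hz)
  have hP2 : insert b (P.erase a) ⊆ B2 := fun z hz => hs2 (mem_insert_of_mem hz)
  have h12 : B1 ≠ B2 := by
    intro he
    apply h01
    apply same h hB0 hB1 (R := insert b P) (by rw [card_insert_of_notMem hb.2]; omega)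
    · intro z hz
      rcases mem_insert.1 hz with rfl | hz
      · exact hb.1
      · exact hP hz
    · intro z hz
      rcases mem_insert.1 hz with rfl | hz
      · rw [he]
        exact hP2 (mem_insert_self _ _)
      · exact hP1 hz
  refine ⟨B0, hB0, B1, hB1, B2, hB2, P, a, b, y, c, by omega, ha, hb.2, hy, hc.2.1, hc.2.2, hc.1,
    hb.1, inter_eq h hB0 hB1 h01 (by omega) hP hP1, inter_eq h hB0 hB2 h02 (by omega) hP' hP2,
    inter_eq h hB1 hB2 h12 ?_ ?_ ?_, h01, h02, h12⟩
  · rw [card_insert_of_notMem (fun h => hyP (mem_of_mem_erase h))]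
    omega
  · intro z hz
    rcases mem_insert.1 hz with rfl | hz
    · exact hy1
    · exact hP1 (mem_of_mem_erase hz)
  · intro z hz
    rcases mem_insert.1 hz with rfl | hz
    · exact hy2
    · exact hP2 (mem_insert_of_mem hz)

/-- lower bound for the number of points -/
theorem points_ge (h : IsSteiner n q r F) (hr : 2 ≤ r) (hrq : r < q) (hqn : q < n) :
    (q - r + 2) * (q - r + 1) + (r - 1) ≤ n := by
  classical
  obtain ⟨B0, hB0⟩ := exists_block h (by omega)
  have hc0 := h.1 B0 hB0
  obtain ⟨y, hy⟩ := exists_notMem (B := B0) (by omega)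
  obtain ⟨S, hS, hSc⟩ := exists_subset_card_eq (s := B0) (n := r - 2) (by omega)
  have hyS : y ∉ S := fun h => hy (hS h)
  have hblk : ∀ x : Fin n, ∃ B : Finset (Fin n), x ∈ B0 \ S → B ∈ F ∧ insert y (insert x S) ⊆ B := by
    intro x
    by_cases hx : x ∈ B0 \ S
    · rw [mem_sdiff] at hx
      have hyx : y ∉ insert x S := by
        intro hh
        rcases mem_insert.1 hh with rfl | hh
        · exact hy hx.1
        · exact hyS hh
      obtain ⟨B, hB, hs⟩ := block h (R := insert y (insert x S)) (by
        rw [card_insert_of_notMem hyx, card_insert_of_notMem hx.2]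
        omega)
      exact ⟨B, fun _ => ⟨hB, hs⟩⟩
    · exact ⟨∅, fun hh => absurd hh hx⟩
  choose β hβ using hblk
  have hdisj : ∀ x ∈ B0 \ S, ∀ x' ∈ B0 \ S, x ≠ x' →
      Disjoint (β x \ insert y S) (β x' \ insert y S) := by
    intro x hx x' hx' hxx
    obtain ⟨hB, hs⟩ := hβ x hx
    obtain ⟨hB', hs'⟩ := hβ x' hx'
    have hne : β x ≠ β x' := by
      intro he
      have h0 : B0 = β x := by
        rw [mem_sdiff] at hx hx'
        apply same h hB0 hB (R := insert x (insert x' S))
        · rw [card_insert_of_notMem, card_insert_of_notMem hx'.2]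
          · omega
          · intro hh
            rcases mem_insert.1 hh with h1 | h1
            · exact hxx h1
            · exact hx.2 h1
        · intro z hz
          rcases mem_insert.1 hz with rfl | hz
          · exact hx.1
          rcases mem_insert.1 hz with rfl | hz
          · exact hx'.1
          · exact hS hz
        · intro z hz
          rcases mem_insert.1 hz with rfl | hz
          · exact hs (mem_insert_of_mem (mem_insert_self _ _))
          rcases mem_insert.1 hz with rfl | hz
          · rw [he]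
            exact hs' (mem_insert_of_mem (mem_insert_self _ _))
          · exact hs (mem_insert_of_mem (mem_insert_of_mem hz))
      apply hy
      rw [h0]
      exact hs (mem_insert_self _ _)
    have hi : β x ∩ β x' = insert y S := by
      apply inter_eq h hB hB' hne
      · rw [card_insert_of_notMem hyS]
        omega
      · intro z hz
        rcases mem_insert.1 hz with rfl | hz
        · exact hs (mem_insert_self _ _)
        · exact hs (mem_insert_of_mem (mem_insert_of_mem hz))
      · intro z hz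
        rcases mem_insert.1 hz with rfl | hz
        · exact hs' (mem_insert_self _ _)
        · exact hs' (mem_insert_of_mem (mem_insert_of_mem hz))
    rw [disjoint_left]
    intro z hz hz'
    rw [mem_sdiff] at hz hz'
    apply hz.2
    rw [← hi]
    exact mem_inter.2 ⟨hz.1, hz'.1⟩
  have hcard : ((B0 \ S).biUnion fun x => β x \ insert y S).card =
      (q - r + 2) * (q - r + 1) := by
    rw [card_biUnion (fun x hx x' hx' hne => hdisj x hx x' hx' hne)]
    rw [sum_congr rfl (g := fun _ => q - r + 1)]
    · rw [sum_const, card_sdiff_of_subset hS, smul_eq_mul]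
      congr 1
      omega
    · intro x hx
      obtain ⟨hB, hs⟩ := hβ x hx
      have hsub : insert y S ⊆ β x := by
        intro z hz
        rcases mem_insert.1 hz with rfl | hz
        · exact hs (mem_insert_self _ _)
        · exact hs (mem_insert_of_mem (mem_insert_of_mem hz))
      rw [card_sdiff_of_subset hsub, h.1 _ hB, card_insert_of_notMem hyS]
      omega
  have hsub : ((B0 \ S).biUnion fun x => β x \ insert y S) ⊆ univ \ insert y S := by
    intro z hz
    obtain ⟨x, _, hz⟩ := mem_biUnion.1 hz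
    exact mem_sdiff.2 ⟨mem_univ _, (mem_sdiff.1 hz).2⟩
  have hle := card_le_card hsub
  rw [hcard, card_sdiff_of_subset (subset_univ _), card_univ, Fintype.card_fin,
    card_insert_of_notMem hyS] at hle
  have hpos : 0 < (q - r + 2) * (q - r + 1) := by positivity
  omega

end Q123.ST
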