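import Pool.Agent.Q123.ST.Basic

/-!
The cases: products, complements of products, majority, sums.
-/

set_option autoImplicit false

open Finset Q123.CC

namespace Q123.ST

variable {n q r : ℕ} {F : Finset (Finset (Fin n))}

lemma mem_word {E : Finset (Finset (Fin n))} {X : Finset (Fin n)} {x : Fin n → ZMod 2}
    (hx : x ∈ (F ∪ E).image word) (hX : x = word X) : X ∈ F ∪ E := by
  obtain ⟨Y, hY, hYx⟩ := mem_image.1 hx
  have : Y = X := word_inj (hYx.trans hX)
  rwa [← this]

lemma word_inter (A B : Finset (Fin n)) : word A * word B = word (A ∩ B) := by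
  funext j
  simp only [Pi.mul_apply, word, mem_inter]
  by_cases hA : j ∈ A <;> by_cases hB : j ∈ B <;> simp [hA, hB]

lemma word_union (A B : Finset (Fin n)) : word A + word B + word A * word B = word (A ∪ B) := by
  funext j
  simp only [Pi.mul_apply, Pi.add_apply, word, mem_union]
  by_cases hA : j ∈ A <;> by_cases hB : j ∈ B <;> simp [hA, hB] <;> decide

lemma word_maj (A B C : Finset (Fin n)) :
    word A * word B + word B * word C + word C * word A = word ((A ∩ B) ∪ (B ∩ C) ∪ (A ∩ C)) := by
  funext j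
  simp only [Pi.mul_apply, Pi.add_apply, word, mem_union, mem_inter]
  by_cases hA : j ∈ A <;> by_cases hB : j ∈ B <;> by_cases hC : j ∈ C <;>
    simp [hA, hB, hC] <;> decide

lemma word_sum (A B C : Finset (Fin n)) :
    word A + word B + word C = word (symmDiff (symmDiff A B) C) := by
  funext j
  simp only [Pi.add_apply, word, mem_symmDiff]
  by_cases hA : j ∈ A <;> by_cases hB : j ∈ B <;> by_cases hC : j ∈ C <;>
    simp [hA, hB, hC] <;> decide

lemma mem_cases {E : Finset (Finset (Fin n))} {X : Finset (Fin n)} (hE : E ⊆ {∅, univ})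
    (hX : X ∈ F ∪ E) : X ∈ F ∨ X = ∅ ∨ X = univ := by
  rcases mem_union.1 hX with h | h
  · exact Or.inl h
  · have := hE h
    rw [mem_insert, mem_singleton] at this
    exact Or.inr this

/-- **Operations that are not affine.** -/
theorem not_target (h : IsSteiner n q r F) (hr : 2 ≤ r) (hrq : r < q) (hqn : q < n)
    {E : Finset (Finset (Fin n))} (hE : E ⊆ {∅, univ}) :
    ¬ Target ((F ∪ E).image word) := by
  obtain ⟨B0, hB0, B1, hB1, B2, hB2, P, a, b, y, c, hP, ha, hb, hy, hc, hcP, hcb, hbB, h01, h02,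
    h12, n01, n02, n12⟩ := config h hr hrq hqn
  have m : ∀ B ∈ F, word B ∈ (F ∪ E).image word := fun B hB =>
    mem_image_of_mem _ (mem_union_left _ hB)
  have hPa : (P.erase a).card + 1 = P.card := card_erase_add_one ha
  have c0 := h.1 B0 hB0
  have c1 := h.1 B1 hB1
  have c2 := h.1 B2 hB2
  have hun : (univ : Finset (Fin n)).card = n := by rw [card_univ, Fintype.card_fin]
  rintro (hT | hT | hT)
  · -- intersections
    have h1 := mem_word (hT _ (m B0 hB0) _ (m B1 hB1)) (word_inter B0 B1)
    rw [h01] at h1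
    rcases mem_cases hE h1 with h2 | h2 | h2
    · have := h.1 P h2
      omega
    · rw [h2, card_empty] at hP
      omega
    · rw [h2, hun] at hP
      omega
  · -- unions
    have h1 := mem_word (hT _ (m B1 hB1) _ (m B2 hB2)) (word_union B1 B2)
    have h3 : (B1 ∪ B2).card + (B1 ∩ B2).card = q + q := by
      rw [card_union_add_card_inter, c1, c2]
    have h4 : (B1 ∩ B2).card < r := inter_card h hB1 hB2 n12
    have h5 : B1 ∪ B2 = univ := by
      rcases mem_cases hE h1 with h2 | h2 | h2
      · have := h.1 _ h2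
        omega
      · rw [h2, card_empty] at h3
        omega
      · exact h2
    have h6 : c ∈ B1 ∪ B2 := by rw [h5]; exact mem_univ _
    rcases mem_union.1 h6 with h7 | h7
    · have : c ∈ B0 ∩ B1 := mem_inter.2 ⟨hc, h7⟩
      rw [h01] at this
      exact hcP this
    · have : c ∈ B0 ∩ B2 := mem_inter.2 ⟨hc, h7⟩
      rw [h02] at this
      rcases mem_insert.1 this with h8 | h8
      · exact hcb h8
      · exact hcP (mem_of_mem_erase h8)
  · -- majority
    have h1 := mem_word (hT _ (m B0 hB0) _ (m B1 hB1) _ (m B2 hB2)) (word_maj B0 B1 B2)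
    rw [h01, h12, h02] at h1
    set M := P ∪ insert y (P.erase a) ∪ insert b (P.erase a) with hM
    have hyM : y ∈ M := mem_union_left _ (mem_union_right _ (mem_insert_self _ _))
    have hbM : b ∈ M := mem_union_right _ (mem_insert_self _ _)
    have hPM : P ⊆ M := fun z hz => mem_union_left _ (mem_union_left _ hz)
    rcases mem_cases hE h1 with h2 | h2 | h2
    · have h3 : B0 = M := by
        apply same h hB0 h2 (R := insert b P) (by rw [card_insert_of_notMem hb]; omega)
        · intro z hz
          rcases mem_insert.1 hz with rfl | hz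
          · exact hbB
          · rw [← h01] at hz
            exact (mem_inter.1 hz).1
        · intro z hz
          rcases mem_insert.1 hz with rfl | hz
          · exact hbM
          · exact hPM hz
      apply hy
      rw [h3]
      exact hyM
    · rw [h2] at hyM
      exact absurd hyM (notMem_empty _)
    · have h3 : M ⊆ insert y (insert b P) := by
        intro z hz
        rcases mem_union.1 hz with hz | hz
        · rcases mem_union.1 hz with hz | hz
          · exact mem_insert_of_mem (mem_insert_of_mem hz)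
          · rcases mem_insert.1 hz with rfl | hz
            · exact mem_insert_self _ _
            · exact mem_insert_of_mem (mem_insert_of_mem (mem_of_mem_erase hz))
        · rcases mem_insert.1 hz with rfl | hz
          · exact mem_insert_of_mem (mem_insert_self _ _)
          · exact mem_insert_of_mem (mem_insert_of_mem (mem_of_mem_erase hz))
      have h4 := card_le_card h3
      rw [h2, hun] at h4
      have h5 := card_insert_le y (insert b P)
      have h6 := card_insert_le b P
      omega

lemma card_symmDiff_add (A B : Finset (Fin n)) :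
    (symmDiff A B).card + 2 * (A ∩ B).card = A.card + B.card := by
  have h1 : symmDiff A B = (A ∪ B) \ (A ∩ B) := by
    ext j
    simp only [mem_symmDiff, mem_sdiff, mem_union, mem_inter]
    tauto
  rw [h1, card_sdiff_of_subset (fun x hx => mem_union_left _ (mem_inter.1 hx).1)]
  have h2 := card_union_add_card_inter A B
  have h3 : (A ∩ B).card ≤ (A ∪ B).card :=
    card_le_card fun x hx => mem_union_left _ (mem_inter.1 hx).1
  omega

/-- sums of three blocks: `q = r + 1` -/
theorem sum_one (h : IsSteiner n q r F) (hr : 2 ≤ r) (hrq : r < q) (hqn : q < n)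
    {E : Finset (Finset (Fin n))} (hE : E ⊆ {∅, univ})
    (hS : ∀ x ∈ (F ∪ E).image word, ∀ y ∈ (F ∪ E).image word, ∀ z ∈ (F ∪ E).image word,
      x + y + z ∈ (F ∪ E).image word) : q = r + 1 := by
  obtain ⟨B0, hB0, B1, hB1, B2, hB2, P, a, b, y, c, hP, ha, hb, hy, hc, hcP, hcb, hbB, h01, h02,
    h12, n01, n02, n12⟩ := config h hr hrq hqn
  have m : ∀ B ∈ F, word B ∈ (F ∪ E).image word := fun B hB =>
    mem_image_of_mem _ (mem_union_left _ hB)
  have c0 := h.1 B0 hB0
  have c1 := h.1 B1 hB1
  have c2 := h.1 B2 hB2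
  have hun : (univ : Finset (Fin n)).card = n := by rw [card_univ, Fintype.card_fin]
  have hPn : P ⊆ B0 := by rw [← h01]; exact inter_subset_left
  have hyP : y ∉ P := fun h => hy (hPn h)
  have hyb : y ≠ b := fun h => hy (h ▸ hbB)
  have hD := mem_word (hS _ (m B0 hB0) _ (m B1 hB1) _ (m B2 hB2)) (word_sum B0 B1 B2)
  have e1 := card_symmDiff_add B0 B1
  have e2 := card_symmDiff_add (symmDiff B0 B1) B2
  have e3 : symmDiff B0 B1 ∩ B2 = {b, y} := by
    have e4 : symmDiff B0 B1 ∩ B2 = symmDiff (B0 ∩ B2) (B1 ∩ B2) := by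
      ext j
      simp only [mem_symmDiff, mem_inter]
      tauto
    rw [e4, h02, h12]
    ext j
    simp only [mem_symmDiff, mem_insert, mem_singleton]
    constructor
    · rintro (⟨h1 | h1, h2⟩ | ⟨h1 | h1, h2⟩)
      · exact Or.inl h1
      · exact absurd (Or.inr h1) h2
      · exact Or.inr h1
      · exact absurd (Or.inr h1) h2
    · rintro (rfl | rfl)
      · left
        refine ⟨Or.inl rfl, ?_⟩
        rintro (h1 | h1)
        · exact hyb h1.symm
        · exact hb (mem_of_mem_erase h1)
      · right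
        refine ⟨Or.inl rfl, ?_⟩
        rintro (h1 | h1)
        · exact hyb h1
        · exact hyP (mem_of_mem_erase h1)
  rw [e3, card_pair hyb.symm] at e2
  rw [h01] at e1
  rcases mem_cases hE hD with h2 | h2 | h2
  · have := h.1 _ h2
    omega
  · rw [h2, card_empty] at e2
    omega
  · rw [h2, hun] at e2
    exfalso
    have h3 := points_ge h hr hrq hqn
    obtain ⟨k, hk⟩ : ∃ k, q = r + k := ⟨q - r, by omega⟩
    have h4 : q - r = k := by omega
    rw [h4] at h3
    have h5 : n + 2 = r + 3 * k := by omega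
    have h6 : (k + 2) * (k + 1) = k * k + 3 * k + 2 := by ring
    rw [h6] at h3
    omega

/-- three blocks through the same set: `n = r + 5` -/
theorem sum_two (h : IsSteiner n (r + 1) r F) (hr : 2 ≤ r) (hqn : r + 1 < n)
    {E : Finset (Finset (Fin n))} (hE : E ⊆ {∅, univ})
    (hS : ∀ x ∈ (F ∪ E).image word, ∀ y ∈ (F ∪ E).image word, ∀ z ∈ (F ∪ E).image word,
      x + y + z ∈ (F ∪ E).image word) : n = r + 5 := by
  have hge := points_ge h hr (by omega) hqn
  have hge : r + 5 ≤ n := by
    have h4 : r + 1 - r = 1 := by omega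
    rw [h4] at hge
    omega
  have m : ∀ B ∈ F, word B ∈ (F ∪ E).image word := fun B hB =>
    mem_image_of_mem _ (mem_union_left _ hB)
  have hun : (univ : Finset (Fin n)).card = n := by rw [card_univ, Fintype.card_fin]
  obtain ⟨R, _, hR⟩ := exists_subset_card_eq (s := (univ : Finset (Fin n))) (n := r - 1)
    (by rw [hun]; omega)
  have key : ∀ A : Finset (Fin n), A.card < n → R ⊆ A → ∃ B ∈ F, R ⊆ B ∧ ∃ y ∈ B, y ∉ A := by
    intro A hA hRA
    obtain ⟨y, hy⟩ := exists_notMem hA
    obtain ⟨B, hB, hs⟩ := block h (R := insert y R) (by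
      rw [card_insert_of_notMem fun h => hy (hRA h)]
      omega)
    exact ⟨B, hB, fun z hz => hs (mem_insert_of_mem hz), y, hs (mem_insert_self _ _), hy⟩
  obtain ⟨A1, hA1, hR1, -⟩ := key R (by omega) subset_rfl
  have c1 := h.1 A1 hA1
  obtain ⟨A2, hA2, hR2, y2, hy2, hy2'⟩ := key A1 (by omega) hR1
  have c2 := h.1 A2 hA2
  have n12 : A1 ≠ A2 := fun he => hy2' (he ▸ hy2)
  have i12 : A1 ∩ A2 = R := inter_eq h hA1 hA2 n12 (by omega) hR1 hR2
  have u12 := card_union_add_card_inter A1 A2
  rw [i12] at u12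
  obtain ⟨A3, hA3, hR3, y3, hy3, hy3'⟩ := key (A1 ∪ A2) (by omega)
    (fun z hz => mem_union_left _ (hR1 hz))
  have c3 := h.1 A3 hA3
  have n13 : A1 ≠ A3 := fun he => hy3' (mem_union_left _ (he ▸ hy3))
  have n23 : A2 ≠ A3 := fun he => hy3' (mem_union_right _ (he ▸ hy3))
  have i13 : A1 ∩ A3 = R := inter_eq h hA1 hA3 n13 (by omega) hR1 hR3
  have i23 : A2 ∩ A3 = R := inter_eq h hA2 hA3 n23 (by omega) hR2 hR3
  have hD := mem_word (hS _ (m A1 hA1) _ (m A2 hA2) _ (m A3 hA3)) (word_sum A1 A2 A3)
  have e1 := card_symmDiff_add A1 A2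
  have e2 := card_symmDiff_add (symmDiff A1 A2) A3
  have e3 : symmDiff A1 A2 ∩ A3 = ∅ := by
    have e4 : symmDiff A1 A2 ∩ A3 = symmDiff (A1 ∩ A3) (A2 ∩ A3) := by
      ext j
      simp only [mem_symmDiff, mem_inter]
      tauto
    rw [e4, i13, i23, symmDiff_self]
    rfl
  rw [e3, card_empty] at e2
  rw [i12] at e1
  rcases mem_cases hE hD with h2 | h2 | h2
  · have := h.1 _ h2
    omega
  · rw [h2, card_empty] at e2
    omega
  · rw [h2, hun] at e2
    omega

/-- the divisibility condition -/
theorem divis {m : ℕ} (h : IsSteiner n q r F) (hm : m ≤ r) (hrn : r ≤ n) :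
    (q - (r - m)).choose m ∣ (n - (r - m)).choose m := by
  classical
  have hun : (univ : Finset (Fin n)).card = n := by rw [card_univ, Fintype.card_fin]
  obtain ⟨S, _, hS⟩ := exists_subset_card_eq (s := (univ : Finset (Fin n))) (n := r - m)
    (by rw [hun]; omega)
  set 𝒯 := powersetCard m (univ \ S) with h𝒯
  have hT : 𝒯.card = (n - (r - m)).choose m := by
    rw [h𝒯, card_powersetCard, card_sdiff_of_subset (subset_univ _), hun, hS]
  have h1 : ∑ T ∈ 𝒯, (F.filter fun B => S ∪ T ⊆ B).card = (n - (r - m)).choose m := by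
    rw [← hT, card_eq_sum_ones]
    apply sum_congr rfl
    intro T hT'
    rw [h𝒯, mem_powersetCard] at hT'
    have hdis : Disjoint S T := by
      rw [disjoint_left]
      intro z hz hz'
      exact (mem_sdiff.1 (hT'.1 hz')).2 hz
    have hc : (S ∪ T).card = r := by
      rw [card_union_of_disjoint hdis, hS, hT'.2]
      omega
    obtain ⟨B, hB, huniq⟩ := h.2 _ hc
    rw [card_eq_one]
    refine ⟨B, ?_⟩
    ext B'
    rw [mem_filter, mem_singleton]
    exact ⟨fun hB' => huniq B' hB', fun hB' => hB' ▸ hB⟩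
  have h2 : ∑ T ∈ 𝒯, (F.filter fun B => S ∪ T ⊆ B).card =
      ∑ B ∈ F, (𝒯.filter fun T => S ∪ T ⊆ B).card := by
    simp_rw [card_filter]
    rw [sum_comm]
  have h3 : ∀ B ∈ F, (q - (r - m)).choose m ∣ (𝒯.filter fun T => S ∪ T ⊆ B).card := by
    intro B hB
    by_cases hSB : S ⊆ B
    · have h4 : (𝒯.filter fun T => S ∪ T ⊆ B) = powersetCard m (B \ S) := by
        ext T
        rw [mem_filter, h𝒯, mem_powersetCard, mem_powersetCard]
        constructor
        · rintro ⟨⟨h5, h6⟩, h7⟩
          refine ⟨fun z hz => mem_sdiff.2 ⟨h7 (mem_union_right _ hz), (mem_sdiff.1 (h5 hz)).2⟩, h6⟩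
        · rintro ⟨h5, h6⟩
          refine ⟨⟨fun z hz => mem_sdiff.2 ⟨mem_univ _, (mem_sdiff.1 (h5 hz)).2⟩, h6⟩, ?_⟩
          exact union_subset hSB fun z hz => (mem_sdiff.1 (h5 hz)).1
      rw [h4, card_powersetCard, card_sdiff_of_subset hSB, h.1 B hB, hS]
    · have h4 : (𝒯.filter fun T => S ∪ T ⊆ B) = ∅ := by
        rw [filter_eq_empty_iff]
        intro T _ h5
        exact hSB (subset_union_left.trans h5)
      rw [h4, card_empty]
      exact dvd_zero _
  rw [← h1, h2]
  exact dvd_sum h3

theorem no_nine {F : Finset (Finset (Fin (r + 5)))} (h : IsSteiner (r + 5) (r + 1) r F) :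
    r ≤ 3 := by
  by_contra hcon
  push Not at hcon
  have h1 := divis (m := 4) h (by omega) (by omega)
  have h2 : r + 1 - (r - 4) = 5 := by omega
  have h3 : r + 5 - (r - 4) = 9 := by omega
  rw [h2, h3] at h1
  revert h1
  decide

/-- **The negation.** -/
theorem negation (h : IsSteiner n q r F) (hr : 2 ≤ r) (hrq : r < q) (hqn : q < n)
    {E : Finset (Finset (Fin n))} (hE : E ⊆ {∅, univ})
    (hS : ∀ x ∈ (F ∪ E).image word, x + 1 ∈ (F ∪ E).image word) :
    q = r + 1 ∧ n = 2 * r + 2 ∧ (r + 2).Prime := by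
  classical
  obtain ⟨B0, hB0⟩ := exists_block h (by omega)
  have hc0 := h.1 B0 hB0
  have hun : (univ : Finset (Fin n)).card = n := by rw [card_univ, Fintype.card_fin]
  -- the complement of a block
  have hn2 : n = 2 * q := by
    have h1 := hS _ (mem_image_of_mem _ (mem_union_left _ hB0))
    have h2 : word B0 + 1 = word B0ᶜ := by
      funext j
      simp only [Pi.add_apply, Pi.one_apply, word, mem_compl]
      by_cases hj : j ∈ B0
      · rw [if_pos hj, if_neg (not_not.2 hj)]
        decide
      · rw [if_neg hj, if_pos hj]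
        decide
    have h3 := mem_word h1 h2
    have h4 : B0ᶜ.card = n - q := by rw [card_compl, Fintype.card_fin, hc0]
    rcases mem_cases hE h3 with h5 | h5 | h5
    · have := h.1 _ h5
      omega
    · rw [h5, card_empty] at h4
      omega
    · rw [h5, hun] at h4
      omega
  -- a set of `r + 1` points which is not covered
  obtain ⟨y, hy⟩ := exists_notMem (B := B0) (by omega)
  obtain ⟨R, hR, hRc⟩ := exists_subset_card_eq (s := B0) (n := r) (by omega)
  have hyR : y ∉ R := fun h => hy (hR h)
  obtain ⟨X, hX⟩ : ∃ X, X = insert y R := ⟨_, rfl⟩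
  have hXc : X.card = r + 1 := by rw [hX, card_insert_of_notMem hyR, hRc]
  have hXB : ∀ B ∈ F, ¬ X ⊆ B := by
    intro B hB hs
    have h1 : B0 = B := same h hB0 hB hRc hR
      (fun z hz => hs (by rw [hX]; exact mem_insert_of_mem hz))
    apply hy
    rw [h1]
    exact hs (by rw [hX]; exact mem_insert_self _ _)
  have hblk : ∀ x : Fin n, ∃ B : Finset (Fin n), x ∈ X → B ∈ F ∧ X.erase x ⊆ B := by
    intro x
    by_cases hx : x ∈ X
    · obtain ⟨B, hB, hs⟩ := block h (R := X.erase x) (by rw [card_erase_of_mem hx]; omega)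
      exact ⟨B, fun _ => ⟨hB, hs⟩⟩
    · exact ⟨∅, fun hh => absurd hh hx⟩
  choose β hβ using hblk
  have hnot : ∀ x ∈ X, x ∉ β x := by
    intro x hx hxx
    obtain ⟨hB, hs⟩ := hβ x hx
    apply hXB _ hB
    intro z hz
    by_cases hzx : z = x
    · rw [hzx]
      exact hxx
    · exact hs (mem_erase.2 ⟨hzx, hz⟩)
  have hdisj : ∀ x ∈ X, ∀ x' ∈ X, x ≠ x' → Disjoint (β x \ X) (β x' \ X) := by
    intro x hx x' hx' hxx
    obtain ⟨hB, hs⟩ := hβ x hx
    obtain ⟨hB', hs'⟩ := hβ x' hx'
    have hne : β x ≠ β x' := by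
      intro he
      apply hnot x hx
      rw [he]
      exact hs' (mem_erase.2 ⟨hxx, hx⟩)
    have hi : β x ∩ β x' = (X.erase x).erase x' := by
      apply inter_eq h hB hB' hne
      · rw [card_erase_of_mem (mem_erase.2 ⟨fun h => hxx h.symm, hx'⟩), card_erase_of_mem hx]
        omega
      · intro z hz
        exact hs (mem_of_mem_erase hz)
      · intro z hz
        rw [mem_erase, mem_erase] at hz
        exact hs' (mem_erase.2 ⟨hz.1, hz.2.2⟩)
    rw [disjoint_left]
    intro z hz hz'
    rw [mem_sdiff] at hz hz'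
    apply hz.2
    have h1 : z ∈ β x ∩ β x' := mem_inter.2 ⟨hz.1, hz'.1⟩
    rw [hi] at h1
    exact mem_of_mem_erase (mem_of_mem_erase h1)
  have hcard : (X.biUnion fun x => β x \ X).card = (r + 1) * (q - r) := by
    rw [card_biUnion (fun x hx x' hx' hne => hdisj x hx x' hx' hne)]
    rw [sum_congr rfl (g := fun _ => q - r)]
    · rw [sum_const, hXc, smul_eq_mul]
    · intro x hx
      obtain ⟨hB, hs⟩ := hβ x hx
      have h1 : β x \ X = β x \ X.erase x := by
        ext z
        rw [mem_sdiff, mem_sdiff, mem_erase]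
        constructor
        · rintro ⟨h1, h2⟩
          exact ⟨h1, fun h3 => h2 h3.2⟩
        · rintro ⟨h1, h2⟩
          refine ⟨h1, fun h3 => h2 ⟨?_, h3⟩⟩
          rintro rfl
          exact hnot _ hx h1
      rw [h1, card_sdiff_of_subset hs, h.1 _ hB, card_erase_of_mem hx]
      omega
  have hle : (X.biUnion fun x => β x \ X).card ≤ (univ \ X).card := by
    apply card_le_card
    intro z hz
    obtain ⟨x, _, hz⟩ := mem_biUnion.1 hz
    exact mem_sdiff.2 ⟨mem_univ _, (mem_sdiff.1 hz).2⟩
  rw [hcard, card_sdiff_of_subset (subset_univ _), hun, hXc] at hle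
  have hq1 : q = r + 1 := by
    obtain ⟨j, hj⟩ : ∃ j, q = r + j + 1 := ⟨q - r - 1, by omega⟩
    have h1 : q - r = j + 1 := by omega
    rw [h1] at hle
    have h2 : (r + 1) * (j + 1) = r * j + r + j + 1 := by ring
    have h3 : r * j ≤ j := by
      rw [h2] at hle
      omega
    rcases Nat.eq_zero_or_pos j with h4 | h4
    · omega
    · exfalso
      have h5 : 2 * j ≤ r * j := Nat.mul_le_mul_right _ hr
      omega
  refine ⟨hq1, by omega, ?_⟩
  by_contra hnp
  obtain ⟨p, hp, hpd⟩ := Nat.exists_prime_and_dvd (n := r + 2) (by omega)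
  have hple : p ≤ r + 1 := by
    have h1 : p ≤ r + 2 := Nat.le_of_dvd (by omega) hpd
    rcases Nat.lt_or_ge p (r + 2) with h2 | h2
    · omega
    · exfalso
      apply hnp
      have : p = r + 2 := by omega
      rw [← this]
      exact hp
  have hp2 := hp.two_le
  have h1 := divis (m := p - 1) h (by omega) (by omega)
  have h2 : q - (r - (p - 1)) = p := by omega
  have h3 : n - (r - (p - 1)) = (r + 2) + (p - 1) := by omega
  rw [h2, h3] at h1
  have h4 : p.choose (p - 1) = p := by
    obtain ⟨l, hl⟩ : ∃ l, p = l + 1 := ⟨p - 1, by omega⟩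
    rw [hl]
    simp
  rw [h4] at h1
  obtain ⟨u, hu⟩ := hpd
  have : Fact p.Prime := ⟨hp⟩
  have h5 := Choose.choose_modEq_choose_mod_mul_choose_div_nat (n := r + 2 + (p - 1))
    (k := p - 1) (p := p)
  have h6 : (r + 2 + (p - 1)) % p = p - 1 := by
    rw [hu, Nat.mul_add_mod]
    exact Nat.mod_eq_of_lt (by omega)
  have h7 : (p - 1) % p = p - 1 := Nat.mod_eq_of_lt (by omega)
  have h8 : (p - 1) / p = 0 := Nat.div_eq_of_lt (by omega)
  rw [h6, h7, h8, Nat.choose_self, Nat.choose_zero_right, Nat.mul_one] at h5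
  have h9 := (Nat.modEq_zero_iff_dvd.2 h1).symm.trans h5
  rw [Nat.ModEq, Nat.zero_mod, Nat.mod_eq_of_lt (by omega)] at h9
  omega

end Q123.ST
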