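import Pool.Agent.Q123.ST.Basic

/-!
The two examples: planes of the affine space of order two and dimension three, lines of the
projective plane of order two.
-/

set_option autoImplicit false

open Finset Q123.CC

namespace Q123.ST

/-- words with prescribed parities -/
def good {n : ℕ} (H : Finset (Finset (Fin n))) (e : ZMod 2) (B : Finset (Fin n)) : Prop :=
  ∀ X ∈ H, ((X ∩ B).card : ZMod 2) = e

instance {n : ℕ} (H : Finset (Finset (Fin n))) (e : ZMod 2) (B : Finset (Fin n)) :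
    Decidable (good H e B) := by
  unfold good
  infer_instance

lemma sum_word {n : ℕ} (X B : Finset (Fin n)) : ∑ j ∈ X, word B j = ((X ∩ B).card : ZMod 2) := by
  unfold word
  rw [sum_ite_mem, sum_const, nsmul_eq_mul, mul_one]

lemma zcases (t : ZMod 2) : t = 0 ∨ t = 1 := by
  revert t
  decide

lemma word_filter {n : ℕ} (x : Fin n → ZMod 2) : word (univ.filter fun j => x j = 1) = x := by
  funext j
  unfold word
  rcases zcases (x j) with h | h
  · rw [if_neg (by rw [mem_filter, h]; simp), h]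
  · rw [if_pos (by rw [mem_filter]; exact ⟨mem_univ _, h⟩), h]

/-- closure under affine operations -/
theorem closed_of_good' {n k : ℕ} {f : (Fin k → ZMod 2) → ZMod 2} {c : ZMod 2} {s : Finset (Fin k)}
    (hf : ∀ x, f x = c + ∑ i ∈ s, x i) {F E : Finset (Finset (Fin n))}
    {H : Finset (Finset (Fin n))} {e : ZMod 2} (hFE : ∀ B, B ∈ F ∪ E ↔ good H e B)
    (hH : ∀ X ∈ H, (X.card : ZMod 2) * c + s.card * e = e) :
    ClosedUnder f ((F ∪ E).image word) := by
  intro w hw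
  have hmem : ∀ x : Fin n → ZMod 2, x ∈ (F ∪ E).image word ↔ ∀ X ∈ H, ∑ j ∈ X, x j = e := by
    intro x
    have h1 : x ∈ (F ∪ E).image word ↔ (univ.filter fun j => x j = 1) ∈ F ∪ E := by
      rw [mem_image]
      constructor
      · rintro ⟨B, hB, hx⟩
        have : B = univ.filter fun j => x j = 1 := word_inj (by rw [hx, word_filter])
        rw [← this]
        exact hB
      · intro h
        exact ⟨_, h, word_filter x⟩
    rw [h1, hFE]
    apply forall_congr'
    intro X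
    apply imp_congr_right
    intro _
    rw [← sum_word, word_filter]
  rw [hmem]
  intro X hX
  have h2 : ∀ j, f (fun i => w i j) = c + ∑ i ∈ s, w i j := fun j => hf _
  rw [sum_congr rfl fun j _ => h2 j, sum_add_distrib, sum_const, nsmul_eq_mul, sum_comm,
    sum_congr rfl fun i _ => (hmem (w i)).1 (hw i) X hX, sum_const, nsmul_eq_mul]
  exact hH X hX

/-- planes -/
def F8 : Finset (Finset (Fin 8)) :=
  {{0, 2, 4, 6}, {1, 3, 5, 7}, {0, 1, 4, 5}, {2, 3, 6, 7}, {0, 1, 2, 3}, {4, 5, 6, 7},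
    {0, 3, 4, 7}, {1, 2, 5, 6}, {0, 2, 5, 7}, {1, 3, 4, 6}, {0, 1, 6, 7}, {2, 3, 4, 5},
    {0, 3, 5, 6}, {1, 2, 4, 7}}

/-- lines -/
def F7 : Finset (Finset (Fin 7)) :=
  {{0, 1, 2}, {0, 3, 4}, {0, 5, 6}, {1, 3, 5}, {1, 4, 6}, {2, 3, 6}, {2, 4, 5}}

def H8 : Finset (Finset (Fin 8)) := {univ, {1, 3, 5, 7}, {2, 3, 6, 7}, {4, 5, 6, 7}}

def H7 : Finset (Finset (Fin 7)) := {univ, {0, 1, 2}, {0, 3, 4}, {1, 3, 5}}

lemma good8 : ∀ B, B ∈ F8 ∪ {∅, univ} ↔ good H8 0 B := by
  decide +kernel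

lemma good7 : ∀ B, B ∈ F7 ∪ {univ} ↔ good H7 1 B := by
  decide +kernel

lemma steiner_of {n q r : ℕ} {F : Finset (Finset (Fin n))} (h1 : ∀ B ∈ F, B.card = q)
    (h2 : ∀ R ∈ powersetCard r (univ : Finset (Fin n)), ∃ B ∈ F, R ⊆ B)
    (h3 : ∀ B ∈ F, ∀ B' ∈ F, r ≤ (B ∩ B').card → B = B') : IsSteiner n q r F := by
  refine ⟨h1, ?_⟩
  intro R hR
  obtain ⟨B, hB, hs⟩ := h2 R (mem_powersetCard.2 ⟨subset_univ _, hR⟩)
  refine ⟨B, ⟨hB, hs⟩, ?_⟩
  rintro B' ⟨hB', hs'⟩
  apply h3 B' hB' B hB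
  rw [← hR]
  exact card_le_card (subset_inter hs' hs)

lemma steiner8 : IsSteiner 8 4 3 F8 := by
  apply steiner_of
  · decide +kernel
  · decide +kernel
  · decide +kernel

lemma steiner7 : IsSteiner 7 3 2 F7 := by
  apply steiner_of
  · decide +kernel
  · decide +kernel
  · decide +kernel

end Q123.ST
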