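import Pool.Agent.Q123.ST.Cases
import Pool.Agent.Q123.ST.Examples

/-!
Classification by the operation.
-/

set_option autoImplicit false

open Finset Q123.CC

namespace Q123.ST

variable {n q r k : ℕ} {F : Finset (Finset (Fin n))}

lemma sum_closed {f : (Fin k → ZMod 2) → ZMod 2} {c : ZMod 2} {s : Finset (Fin k)}
    (hs : 2 ≤ s.card) (hf : ∀ x, f x = c + ∑ i ∈ s, x i) (C : Finset (Fin n → ZMod 2))
    (hC : ClosedUnder f C) : ∀ x ∈ C, ∀ y ∈ C, ∀ z ∈ C, x + y + z ∈ C := by
  intro x hx y hy z hz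
  obtain ⟨W, c0, hW⟩ := coset_of_affine hs hf C hC ⟨x, hx⟩
  rw [hW] at hx hy hz ⊢
  have h1 := W.add_mem (W.add_mem hx hy) hz
  have h2 : x + y + z + c0 = x + c0 + (y + c0) + (z + c0) := by
    have h3 : c0 + c0 = 0 := by
      funext j
      have : ∀ t : ZMod 2, t + t = 0 := by decide
      exact this _
    have h4 : x + c0 + (y + c0) + (z + c0) = x + y + z + c0 + (c0 + c0) := by abel
    rw [h4, h3, add_zero]
  rw [h2]
  exact h1

/-- the two parameter sets -/
theorem sum_cases {E : Finset (Finset (Fin n))} (hE : E ⊆ {∅, univ})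
    (hS : ∀ x ∈ (F ∪ E).image word, ∀ y ∈ (F ∪ E).image word, ∀ z ∈ (F ∪ E).image word,
      x + y + z ∈ (F ∪ E).image word)
    (h : IsSteiner n q r F) (hr : 2 ≤ r) (hrq : r < q) (hqn : q < n) :
    (n = 8 ∧ q = 4 ∧ r = 3) ∨ (n = 7 ∧ q = 3 ∧ r = 2) := by
  have h1 := sum_one h hr hrq hqn hE hS
  subst h1
  have h2 := sum_two h hr hqn hE hS
  subst h2
  have h3 := no_nine h
  omega

/-- seven points, wrong diagonal value -/
theorem seven {F : Finset (Finset (Fin 7))} {E : Finset (Finset (Fin 7))} (hE : E ⊆ {∅, univ})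
    (hS : ∀ x ∈ (F ∪ E).image word, ∀ y ∈ (F ∪ E).image word, ∀ z ∈ (F ∪ E).image word,
      x + y + z ∈ (F ∪ E).image word)
    (h : IsSteiner 7 3 2 F) {f : (Fin k → ZMod 2) → ZMod 2}
    (hC : ClosedUnder f ((F ∪ E).image word)) : f (fun _ => 1) = 1 := by
  classical
  by_contra hne
  have h0 : f (fun _ => 1) = 0 := (zcases _).resolve_right hne
  obtain ⟨B0, hB0⟩ := exists_block h (by omega)
  obtain ⟨y, hy⟩ := exists_notMem (B := B0) (by rw [h.1 B0 hB0]; omega)
  obtain ⟨x, hx⟩ : B0.Nonempty := card_pos.1 (by rw [h.1 B0 hB0]; omega)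
  have hxy : x ≠ y := fun he => hy (he ▸ hx)
  obtain ⟨B1, hB1, hs1⟩ := block h (R := {x, y}) (card_pair hxy)
  have n01 : B0 ≠ B1 := fun he => hy (he ▸ hs1 (by simp))
  have i01 : B0 ∩ B1 = {x} := inter_eq h hB0 hB1 n01 (by rw [card_singleton])
    (singleton_subset_iff.2 hx) (singleton_subset_iff.2 (hs1 (by simp)))
  have m : ∀ B ∈ F, word B ∈ (F ∪ E).image word := fun B hB =>
    mem_image_of_mem _ (mem_union_left _ hB)
  have hbad : ∀ D : Finset (Fin 7), D ∈ F ∪ E → D.card ≠ 4 := by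
    intro D hD hc
    rcases mem_cases hE hD with h1 | h1 | h1
    · have := h.1 _ h1
      omega
    · rw [h1, card_empty] at hc
      omega
    · rw [h1, card_univ, Fintype.card_fin] at hc
      omega
  have key := hC (fun _ => word B0) (fun _ => m B0 hB0)
  rcases zcases (f fun _ => 0) with hc | hc
  · -- the empty set
    have h1 : (fun j => f fun _ => word B0 j) = word ∅ := by
      funext j
      unfold word
      rw [if_neg (notMem_empty _)]
      by_cases hj : j ∈ B0
      · rw [if_pos hj]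
        exact h0
      · rw [if_neg hj]
        exact hc
    rw [h1] at key
    have h2 := hS _ key _ (m B0 hB0) _ (m B1 hB1)
    have h3 := mem_word h2 (word_sum ∅ B0 B1)
    apply hbad _ h3
    have h4 : symmDiff (∅ : Finset (Fin 7)) B0 = B0 := by
      ext j
      simp [mem_symmDiff]
    rw [h4]
    have h7 := card_symmDiff_add B0 B1
    rw [i01, card_singleton, h.1 _ hB0, h.1 _ hB1] at h7
    omega
  · -- the complement
    have h1 : (fun j => f fun _ => word B0 j) = word B0ᶜ := by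
      funext j
      unfold word
      by_cases hj : j ∈ B0
      · rw [if_pos hj, if_neg (fun h => (mem_compl.1 h) hj)]
        exact h0
      · rw [if_neg hj, if_pos (mem_compl.2 hj)]
        exact hc
    have h6 := mem_word key h1
    apply hbad _ h6
    rw [card_compl, Fintype.card_fin, h.1 _ hB0]

/-- closure under a set of operations -/
def ClosedAll (Φ : ∀ k : ℕ, Set ((Fin k → ZMod 2) → ZMod 2)) (F : Finset (Finset (Fin n))) :
    Prop :=
  ∃ E : Finset (Finset (Fin n)), E ⊆ {∅, univ} ∧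
    ∀ k, ∀ f ∈ Φ k, ClosedUnder f ((F ∪ E).image word)

/-- the operation depends on at least two variables -/
def Binary {k : ℕ} (f : (Fin k → ZMod 2) → ZMod 2) : Prop :=
  ∃ (c : ZMod 2) (s : Finset (Fin k)), 2 ≤ s.card ∧ ∀ x, f x = c + ∑ i ∈ s, x i

theorem case_not_affine {Φ : ∀ k : ℕ, Set ((Fin k → ZMod 2) → ZMod 2)}
    (hΦ : ∃ k, ∃ f ∈ Φ k, ¬ IsAffine f) (h : IsSteiner n q r F) (hr : 2 ≤ r) (hrq : r < q)
    (hqn : q < n) : ¬ ClosedAll Φ F := by
  rintro ⟨E, hE, hC⟩
  obtain ⟨k, f, hf, hna⟩ := hΦ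
  exact not_target h hr hrq hqn hE (target_of_closed hna _ (hC k f hf))

/-- **Affine operations of at least two variables.** -/
theorem case_affine {Φ : ∀ k : ℕ, Set ((Fin k → ZMod 2) → ZMod 2)}
    (hΦ : ∀ k, ∀ f ∈ Φ k, IsAffine f) (hΦ2 : ∃ k, ∃ f ∈ Φ k, Binary f) (hr : 2 ≤ r) (hrq : r < q)
    (hqn : q < n) :
    (∃ F : Finset (Finset (Fin n)), IsSteiner n q r F ∧ ClosedAll Φ F) ↔
      (n = 8 ∧ q = 4 ∧ r = 3) ∨
        (n = 7 ∧ q = 3 ∧ r = 2 ∧ ∀ k, ∀ f ∈ Φ k, f (fun _ => 1) = 1) := by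
  constructor
  · rintro ⟨F, h, E, hE, hC⟩
    obtain ⟨k, f, hf, c, s, hs, hfs⟩ := hΦ2
    have hS := sum_closed hs hfs _ (hC k f hf)
    rcases sum_cases hE hS h hr hrq hqn with h1 | ⟨h1, h2, h3⟩
    · exact Or.inl h1
    · subst h1
      subst h2
      subst h3
      exact Or.inr ⟨rfl, rfl, rfl, fun k f hf => seven hE hS h (hC k f hf)⟩
  · rintro (⟨h1, h2, h3⟩ | ⟨h1, h2, h3, h4⟩)
    · subst h1
      subst h2
      subst h3
      refine ⟨F8, steiner8, {∅, univ}, subset_rfl, ?_⟩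
      intro k f hf
      obtain ⟨c, s, hfs⟩ := hΦ k f hf
      apply closed_of_good' hfs good8
      intro X hX
      have h5 : ∀ X ∈ H8, (X.card : ZMod 2) = 0 := by decide +kernel
      rw [h5 X hX, zero_mul, mul_zero, add_zero]
    · subst h1
      subst h2
      subst h3
      refine ⟨F7, steiner7, {univ}, ?_, ?_⟩
      · intro B hB
        exact mem_insert_of_mem hB
      · intro k f hf
        obtain ⟨c, s, hfs⟩ := hΦ k f hf
        apply closed_of_good' hfs good7
        intro X hX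
        have h5 : ∀ X ∈ H7, (X.card : ZMod 2) = 1 := by decide +kernel
        have h6 := h4 k f hf
        rw [hfs, sum_const, nsmul_eq_mul] at h6
        rw [h5 X hX, one_mul]
        exact h6

/-- constants and projections -/
theorem case_trivial {Φ : ∀ k : ℕ, Set ((Fin k → ZMod 2) → ZMod 2)}
    (hΦ : ∀ k, ∀ f ∈ Φ k, (∃ c, ∀ x, f x = c) ∨ ∃ i, ∀ x, f x = x i)
    (F : Finset (Finset (Fin n))) : ClosedAll Φ F := by
  refine ⟨{∅, univ}, subset_rfl, ?_⟩
  intro k f hf w hw
  rcases hΦ k f hf with ⟨c, hc⟩ | ⟨i, hi⟩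
  · rcases zcases c with h0 | h0
    · refine mem_image.2 ⟨∅, mem_union_right _ (by simp), ?_⟩
      funext j
      rw [hc, h0]
      unfold word
      rw [if_neg (notMem_empty _)]
    · refine mem_image.2 ⟨univ, mem_union_right _ (by simp), ?_⟩
      funext j
      rw [hc, h0]
      unfold word
      rw [if_pos (mem_univ _)]
  · have h1 : (fun j => f fun i => w i j) = w i := by
      funext j
      rw [hi]
    rw [h1]
    exact hw i

/-- the negation -/
theorem case_negation {Φ : ∀ k : ℕ, Set ((Fin k → ZMod 2) → ZMod 2)}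
    (hΦ : ∃ k, ∃ f ∈ Φ k, ∃ i, ∀ x, f x = 1 + x i)
    (h : IsSteiner n q r F) (hr : 2 ≤ r) (hrq : r < q) (hqn : q < n) (hC : ClosedAll Φ F) :
    q = r + 1 ∧ n = 2 * r + 2 ∧ (r + 2).Prime := by
  obtain ⟨E, hE, hC⟩ := hC
  obtain ⟨k, f, hf, i, hfi⟩ := hΦ
  apply negation h hr hrq hqn hE
  intro x hx
  have h1 := hC k f hf (fun _ => x) (fun _ => hx)
  have h2 : (fun j => f fun _ => x j) = x + 1 := by
    funext j
    rw [hfi, add_comm]
    rfl
  rw [← h2]
  exact h1

end Q123.ST
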